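import Pool.Agent.Helper63.TS.Trans

/-!
# Post-critically finite maps: the critical divisor divides a power of the cofactor
-/

set_option autoImplicit false

namespace Pool.Agent.Helper65.PC

open MvPolynomial
open Pool.Agent.Helper36 (exists_nullstellensatz)

section chain

variable {ι K S : Type} [Fintype ι] [Field K] [CommRing S] [Algebra K S]

/-- The chain rule for a derivation. -/
theorem deriv_aeval (D : Derivation K S S) (F : ι → S) (g : MvPolynomial ι K) :
    D (aeval F g) = ∑ j, aeval F (pderiv j g) * D (F j) := by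
  classical
  induction g using MvPolynomial.induction_on with
  | C c =>
    simp
  | add p q hp hq =>
    simp only [map_add, hp, hq, add_mul, Finset.sum_add_distrib]
  | mul_X p i hp =>
    rw [map_mul, aeval_X, Derivation.leibniz, hp, smul_eq_mul, smul_eq_mul, Finset.mul_sum]
    have h1 : ∀ j, aeval F (pderiv j (p * X i)) * D (F j) =
        (if j = i then aeval F p * D (F j) else 0) + F i * (aeval F (pderiv j p) * D (F j)) := by
      intro j
      rw [Derivation.leibniz, pderiv_X, smul_eq_mul, smul_eq_mul, map_add, map_mul, map_mul,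
        aeval_X]
      by_cases hj : j = i
      · subst hj
        simp
        ring
      · rw [if_neg hj, Pi.single_eq_of_ne (Ne.symm hj)]
        simp
        ring
    rw [Finset.sum_congr rfl fun j _ => h1 j, Finset.sum_add_distrib, Finset.sum_ite_eq']
    simp

end chain

section integral

variable {ι K L : Type} [Fintype ι] [DecidableEq ι] [Field K] [Field L] [Algebra K L]
  [IsAlgClosed L]

/-- All polynomials are integral over the subalgebra generated by forms without common zeros. -/
theorem isIntegral_adjoin {d : ℕ} (hd : 0 < d) {F : ι → MvPolynomial ι K}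
    (hhom : ∀ i, (F i).IsHomogeneous d)
    (hnz : ∀ x : ι → L, (∀ i, aeval x (F i) = 0) → x = 0) (x : MvPolynomial ι K) :
    IsIntegral (Algebra.adjoin K (Set.range F)) x := by
  classical
  obtain ⟨M, q, hqh, hq⟩ := exists_nullstellensatz (L := L) F hhom hnz
  set R := Algebra.adjoin K (Set.range F) with hR
  set B : ℕ := Fintype.card ι * (M + d) + 1 with hB
  let T : Finset (MvPolynomial ι K) :=
    ((Finset.range B).biUnion fun n => (Finset.univ : Finset ι).finsuppAntidiag n).image
      fun m => monomial m 1
  let N : Submodule R (MvPolynomial ι K) := Submodule.span R (T : Set _)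
  have hmem : ∀ n : ℕ, ∀ P : MvPolynomial ι K, P.IsHomogeneous n → P ∈ N := by
    intro n
    induction n using Nat.strong_induction_on with
    | _ n ih =>
      intro P hP
      rw [P.as_sum]
      refine Submodule.sum_mem _ fun m hm => ?_
      have hdegm : m.degree = n := by
        have := hP (mem_support_iff.1 hm)
        rw [← this, Finsupp.degree_eq_weight_one]
        rfl
      have hsum : ∑ i, m i = n := by
        rw [← hdegm, Finsupp.degree_eq_sum]
      by_cases hnB : n < B
      · have h1 : monomial m (P.coeff m) =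
            (algebraMap K R (P.coeff m)) • (monomial m (1 : K)) := by
          rw [Algebra.smul_def]
          change _ = (C (P.coeff m)) * _
          rw [C_mul_monomial, mul_one]
        rw [h1]
        refine Submodule.smul_mem _ _ (Submodule.subset_span ?_)
        rw [Finset.mem_coe, Finset.mem_image]
        refine ⟨m, ?_, rfl⟩
        rw [Finset.mem_biUnion]
        refine ⟨n, Finset.mem_range.2 hnB, ?_⟩
        rw [Finset.mem_finsuppAntidiag]
        exact ⟨hsum, Finset.subset_univ _⟩
      · have h2 : ∃ j, M + d ≤ m j := by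
          by_contra hcon
          push Not at hcon
          have h3 : ∑ i, m i ≤ ∑ _i : ι, (M + d) :=
            Finset.sum_le_sum fun i _ => (hcon i).le
          rw [Finset.sum_const, Finset.card_univ, smul_eq_mul] at h3
          omega
        obtain ⟨j, hj⟩ := h2
        set r : ι →₀ ℕ := m - Finsupp.single j (M + d) with hr
        have hmr : m = Finsupp.single j (M + d) + r := by
          rw [hr, add_tsub_cancel_of_le]
          rwa [Finsupp.single_le_iff]
        have hrdeg : (M + d) + r.degree = n := by
          rw [← hdegm, hmr, map_add, Finsupp.degree_single]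
        have h3 : monomial m (P.coeff m) = ∑ i, F i * (q (j, i) * monomial r (P.coeff m)) := by
          have h4 : monomial m (P.coeff m) = X j ^ (M + d) * monomial r (P.coeff m) := by
            rw [X_pow_eq_monomial, monomial_mul, one_mul, ← hmr]
          rw [h4, ← hq j, Finset.sum_mul]
          refine Finset.sum_congr rfl fun i _ => ?_
          ring
        rw [h3]
        refine Submodule.sum_mem _ fun i _ => ?_
        have h5 : q (j, i) * monomial r (P.coeff m) ∈ N := by
          refine ih (M + r.degree) (by omega) _ ((hqh (j, i)).mul ?_)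
          exact isHomogeneous_monomial _ rfl
        have h6 : F i * (q (j, i) * monomial r (P.coeff m)) =
            (⟨F i, Algebra.subset_adjoin ⟨i, rfl⟩⟩ : R) • (q (j, i) * monomial r (P.coeff m)) :=
          rfl
        rw [h6]
        exact Submodule.smul_mem _ _ h5
  have htop : N = ⊤ := by
    rw [eq_top_iff]
    intro P _
    rw [← sum_homogeneousComponent P]
    exact Submodule.sum_mem _ fun n _ => hmem n _ (homogeneousComponent_isHomogeneous n P)
  have hfin : Module.Finite R (MvPolynomial ι K) := ⟨⟨T, htop⟩⟩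
  exact IsIntegral.of_finite R x

end integral

section transversal

variable {ι K : Type} [Fintype ι] [Field K] [CharZero K]

/-- A vector field which is tangent to `P = 0` and kills the `F j` modulo `P` vanishes
modulo `P`. -/
theorem dvd_of_tangent {F : ι → MvPolynomial ι K}
    (hint : ∀ x : MvPolynomial ι K, IsIntegral (Algebra.adjoin K (Set.range F)) x)
    {P : MvPolynomial ι K} (hP : Irreducible P) {c : ι → MvPolynomial ι K}
    (hF : ∀ j, P ∣ ∑ i, c i * pderiv i (F j)) (hPP : P ∣ ∑ i, c i * pderiv i P) (i : ι) :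
    P ∣ c i := by
  classical
  let D : Derivation K (MvPolynomial ι K) (MvPolynomial ι K) := mkDerivation K c
  have hDap : ∀ Q, D Q = ∑ i, c i * pderiv i Q := by
    intro Q
    have h := deriv_aeval D X Q
    rw [aeval_X_left_apply] at h
    rw [h]
    refine Finset.sum_congr rfl fun j _ => ?_
    rw [aeval_X_left_apply, mul_comm]
    congr 1
    exact mkDerivation_X K c j
  have hDP : P ∣ D P := by rw [hDap]; exact hPP
  have hDF : ∀ l, P ∣ D (F l) := fun l => by rw [hDap]; exact hF l
  set I : Ideal (MvPolynomial ι K) := Ideal.span {P} with hI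
  have hprime : I.IsPrime := (Ideal.span_singleton_prime hP.ne_zero).2 hP.prime
  let π : MvPolynomial ι K →ₐ[K] (MvPolynomial ι K ⧸ I) := Ideal.Quotient.mkₐ K I
  have hπs : Function.Surjective π := Ideal.Quotient.mkₐ_surjective K I
  have hπ0 : ∀ Q, π Q = 0 ↔ P ∣ Q := by
    intro Q
    rw [← Ideal.mem_span_singleton, ← hI]
    exact Ideal.Quotient.eq_zero_iff_mem
  have hcharA : CharZero (MvPolynomial ι K ⧸ I) :=
    charZero_of_injective_algebraMap (algebraMap K (MvPolynomial ι K ⧸ I)).injective
  obtain ⟨D', hD'⟩ := Pool.Agent.Helper63.TS.trans_quot π hπs D (by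
    intro Q hQ
    rw [hπ0] at hQ ⊢
    obtain ⟨Q', rfl⟩ := hQ
    rw [Derivation.leibniz, smul_eq_mul, smul_eq_mul]
    exact dvd_add (Dvd.intro _ rfl) (Dvd.dvd.mul_left hDP _))
  have hkill : ∀ Q ∈ Algebra.adjoin K (Set.range F), π (D Q) = 0 := by
    intro Q hQ
    induction hQ using Algebra.adjoin_induction with
    | mem x hx =>
      obtain ⟨j, rfl⟩ := hx
      exact (hπ0 _).2 (hDF j)
    | algebraMap r => rw [D.map_algebraMap, map_zero]
    | add x y _ _ hx hy => rw [map_add, map_add, hx, hy, add_zero]
    | mul x y _ _ hx hy =>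
      rw [Derivation.leibniz, smul_eq_mul, smul_eq_mul, map_add, map_mul, map_mul, hx, hy,
        mul_zero, mul_zero, add_zero]
  let R := Algebra.adjoin K (Set.range F)
  have hkill' : ∀ u ∈ R.map π, D' u = 0 := by
    rintro _ ⟨Q, hQ, rfl⟩
    exact (hD' Q).trans (hkill Q hQ)
  have hint' : IsIntegral (R.map π) (π (X i)) := by
    have h1 : IsIntegral R (X i : MvPolynomial ι K) := hint (X i)
    let φ : R →+* (R.map π) :=
      { toFun := fun r => ⟨π r, ⟨r, r.2, rfl⟩⟩
        map_one' := Subtype.ext (map_one π)
        map_mul' := fun r s => Subtype.ext (map_mul π _ _)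
        map_zero' := Subtype.ext (map_zero π)
        map_add' := fun r s => Subtype.ext (map_add π _ _) }
    exact h1.map_of_comp_eq φ π.toRingHom (RingHom.ext fun r => rfl)
  obtain ⟨Q, hQ, h0⟩ := hint'
  have h1 := Pool.Agent.Helper30.TP.derivation_algebraic (R.map π) D' hkill' (π (X i))
    Q.natDegree Q hQ.ne_zero le_rfl h0
  rw [hD', hπ0] at h1
  have h2 : D (X i) = c i := mkDerivation_X K c i
  rwa [h2] at h1

/-- If `P` divides the Jacobian determinant of `F` and divides `g` exactly once, and
`g ∘ F = g * q`, then `P` divides `q`. -/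
theorem dvd_cofactor [DecidableEq ι] {F : ι → MvPolynomial ι K}
    (hint : ∀ x : MvPolynomial ι K, IsIntegral (Algebra.adjoin K (Set.range F)) x)
    {P : MvPolynomial ι K} (hP : Irreducible P)
    (hJ : P ∣ (Matrix.of fun i j => pderiv j (F i)).det) {g q : MvPolynomial ι K}
    (hPg : P ∣ g) (hsq : ¬ P * P ∣ g) (hq : aeval F g = g * q) : P ∣ q := by
  classical
  obtain ⟨g₁, rfl⟩ := hPg
  have hg₁ : ¬ P ∣ g₁ := fun h => hsq (mul_dvd_mul_left P h)
  -- the kernel vector
  set I : Ideal (MvPolynomial ι K) := Ideal.span {P} with hI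
  have hprime : I.IsPrime := (Ideal.span_singleton_prime hP.ne_zero).2 hP.prime
  have hdet : ((Matrix.of fun i j => pderiv j (F i)).map (Ideal.Quotient.mk I)).det = 0 := by
    have h1 := RingHom.map_det (Ideal.Quotient.mk I) (Matrix.of fun i j => pderiv j (F i))
    have h2 : (Ideal.Quotient.mk I) (Matrix.of fun i j => pderiv j (F i)).det = 0 :=
      Ideal.Quotient.eq_zero_iff_mem.2 (Ideal.mem_span_singleton.2 hJ)
    rw [h1] at h2
    exact h2
  obtain ⟨v, hv, hv0⟩ := Matrix.exists_mulVec_eq_zero_iff.2 hdet
  have hlift : ∀ i, ∃ c : MvPolynomial ι K, Ideal.Quotient.mk I c = v i := fun i =>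
    Ideal.Quotient.mk_surjective (v i)
  choose c hc using hlift
  have hmem : ∀ Q : MvPolynomial ι K, Ideal.Quotient.mk I Q = 0 ↔ P ∣ Q := by
    intro Q
    rw [Ideal.Quotient.eq_zero_iff_mem, hI, Ideal.mem_span_singleton]
  have hF : ∀ j, P ∣ ∑ i, c i * pderiv i (F j) := by
    intro j
    rw [← hmem, map_sum]
    have h1 := congrFun hv0 j
    rw [Matrix.mulVec, dotProduct] at h1
    rw [← Pi.zero_apply (M := fun _ => MvPolynomial ι K ⧸ I) j, ← h1]
    refine Finset.sum_congr rfl fun i _ => ?_
    rw [map_mul, hc, mul_comm]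
    rfl
  -- transversality
  have hPP : ¬ P ∣ ∑ i, c i * pderiv i P := by
    intro h
    apply hv
    funext i
    rw [← hc, Pi.zero_apply, hmem]
    exact dvd_of_tangent hint hP hF h i
  -- the derivation
  let D : Derivation K (MvPolynomial ι K) (MvPolynomial ι K) := mkDerivation K c
  have hDap : ∀ Q, D Q = ∑ i, c i * pderiv i Q := by
    intro Q
    have h := deriv_aeval D X Q
    rw [aeval_X_left_apply] at h
    rw [h]
    refine Finset.sum_congr rfl fun j _ => ?_
    rw [aeval_X_left_apply, mul_comm]
    congr 1
    exact mkDerivation_X K c j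
  have h1 : P ∣ D (aeval F (P * g₁)) := by
    rw [deriv_aeval]
    refine Finset.dvd_sum fun j _ => Dvd.dvd.mul_left ?_ _
    rw [hDap]
    exact hF j
  rw [hq, mul_assoc, Derivation.leibniz, smul_eq_mul, smul_eq_mul] at h1
  have h2 : P ∣ (g₁ * q) * D P := (dvd_add_right (Dvd.intro _ rfl)).1 h1
  have h3 : P ∣ g₁ * q := by
    refine (hP.prime.dvd_or_dvd h2).resolve_right ?_
    rw [hDap]
    exact hPP
  exact (hP.prime.dvd_or_dvd h3).resolve_left hg₁

end transversal

section main

variable {ι K L : Type} [Fintype ι] [DecidableEq ι] [Field K] [CharZero K] [Field L]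
  [Algebra K L] [IsAlgClosed L]

/-- A product of primes each of which divides `q` divides a power of `q`. -/
theorem dvd_pow_of_forall_irreducible {R : Type} [CommRing R] [IsDomain R]
    [UniqueFactorizationMonoid R] {J q : R} (hJ : J ≠ 0)
    (h : ∀ P, Irreducible P → P ∣ J → P ∣ q) : ∃ E : ℕ, J ∣ q ^ E := by
  classical
  induction J using UniqueFactorizationMonoid.induction_on_prime with
  | h₁ => exact absurd rfl hJ
  | h₂ u hu => exact ⟨0, by rw [pow_zero]; exact hu.dvd⟩
  | h₃ a p ha hp ih =>
    obtain ⟨E, hE⟩ := ih ha fun P hP hPa => h P hP (Dvd.dvd.mul_left hPa _)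
    refine ⟨E + 1, ?_⟩
    rw [pow_succ']
    exact mul_dvd_mul (h p hp.irreducible (Dvd.intro _ rfl)) hE

/-- The Jacobian determinant divides a power of the cofactor. -/
theorem jac_dvd_pow {d : ℕ} (hd : 0 < d) {F : ι → MvPolynomial ι K}
    (hhom : ∀ i, (F i).IsHomogeneous d)
    (hnz : ∀ x : ι → L, (∀ i, aeval x (F i) = 0) → x = 0)
    (hJ0 : (Matrix.of fun i j => pderiv j (F i)).det ≠ 0) {g q : MvPolynomial ι K}
    (hsq : Squarefree g)
    (hJg : ∀ P, Irreducible P → P ∣ (Matrix.of fun i j => pderiv j (F i)).det → P ∣ g)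
    (hq : aeval F g = g * q) :
    ∃ E : ℕ, (Matrix.of fun i j => pderiv j (F i)).det ∣ q ^ E := by
  refine dvd_pow_of_forall_irreducible hJ0 fun P hP hPJ => ?_
  refine dvd_cofactor (isIntegral_adjoin (L := L) hd hhom hnz) hP hPJ (hJg P hP hPJ) ?_ hq
  intro h
  exact hP.not_isUnit (hsq P h)

end main

end Pool.Agent.Helper65.PC
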