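import Pool.Agent.Helper65.PC.Alg

/-!
# The Jacobian determinant of forms without common zeros
-/

set_option autoImplicit false

namespace Pool.Agent.Helper65.PC

open MvPolynomial

variable {ι K L : Type} [Fintype ι] [DecidableEq ι] [Field K] [CharZero K] [Field L]
  [Algebra K L] [IsAlgClosed L]

/-- The Jacobian determinant of forms without common zeros does not vanish. -/
theorem jac_det_ne_zero {d : ℕ} (hd : 0 < d) {F : ι → MvPolynomial ι K}
    (hhom : ∀ i, (F i).IsHomogeneous d)
    (hnz : ∀ x : ι → L, (∀ i, aeval x (F i) = 0) → x = 0) :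
    (Matrix.of fun i j => pderiv j (F i)).det ≠ 0 := by
  intro h0
  have hint := isIntegral_adjoin (L := L) hd hhom hnz
  obtain ⟨c, hc, hc0⟩ := Matrix.exists_mulVec_eq_zero_iff.2 h0
  apply hc
  funext i
  let D : Derivation K (MvPolynomial ι K) (MvPolynomial ι K) := mkDerivation K c
  have hDF : ∀ j, D (F j) = 0 := by
    intro j
    have h := deriv_aeval D X (F j)
    rw [aeval_X_left_apply] at h
    rw [h]
    have h1 := congrFun hc0 j
    rw [Matrix.mulVec, dotProduct] at h1
    rw [← Pi.zero_apply (M := fun _ => MvPolynomial ι K) j, ← h1]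
    refine Finset.sum_congr rfl fun k _ => ?_
    rw [aeval_X_left_apply]
    congr 1
    exact mkDerivation_X K c k
  have hkill : ∀ Q ∈ Algebra.adjoin K (Set.range F), D Q = 0 := by
    intro Q hQ
    induction hQ using Algebra.adjoin_induction with
    | mem x hx =>
      obtain ⟨j, rfl⟩ := hx
      exact hDF j
    | algebraMap r => exact D.map_algebraMap r
    | add x y _ _ hx hy => rw [map_add, hx, hy, add_zero]
    | mul x y _ _ hx hy =>
      rw [Derivation.leibniz, hx, hy, smul_zero, smul_zero, add_zero]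
  obtain ⟨Q, hQ, h1⟩ := hint (X i)
  have h2 := Pool.Agent.Helper30.TP.derivation_algebraic _ D hkill (X i)
    Q.natDegree Q hQ.ne_zero le_rfl h1
  have h3 : D (X i) = c i := mkDerivation_X K c i
  rw [← h3, h2]
  rfl

/-- The Jacobian determinant divides a power of the cofactor. -/
theorem jac_dvd_pow' {d : ℕ} (hd : 0 < d) {F : ι → MvPolynomial ι K}
    (hhom : ∀ i, (F i).IsHomogeneous d)
    (hnz : ∀ x : ι → L, (∀ i, aeval x (F i) = 0) → x = 0) {g q : MvPolynomial ι K}
    (hsq : Squarefree g)
    (hJg : ∀ P, Irreducible P → P ∣ (Matrix.of fun i j => pderiv j (F i)).det → P ∣ g)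
    (hq : aeval F g = g * q) :
    ∃ E : ℕ, (Matrix.of fun i j => pderiv j (F i)).det ∣ q ^ E :=
  jac_dvd_pow (L := L) hd hhom hnz (jac_det_ne_zero (L := L) hd hhom hnz) hsq hJg hq

end Pool.Agent.Helper65.PC
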